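import Pool.Agent.Work.MP_66eb21_an.Proof

set_option autoImplicit false

namespace Pool.Agent.Results.MP_66eb21_an.NoAmalgamation

open Pool.Agent.Work.MP_66eb21_an

/-- There are rational finitely presented actions `A`, `B`, `C` and embeddings `A → B`, `A → C`
which cannot be amalgamated in any finitely presented action (rational or not). -/
theorem result :
    ∃ (A B C : FPAction) (e₁ : Emb A B) (e₂ : Emb A C),
      A.Rational ∧ B.Rational ∧ C.Rational ∧
        ¬ ∃ (D : FPAction) (f₁ : Emb B D) (f₂ : Emb C D),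
          (∀ g : A.F, f₁.φ (e₁.φ g) = f₂.φ (e₂.φ g)) ∧
            (∀ i : A.I, f₁.ψ (e₁.ψ i) = f₂.ψ (e₂.ψ i)) :=
  main

end Pool.Agent.Results.MP_66eb21_an.NoAmalgamation
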